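import Pool.Agent.SelbergD1.F7bThmB
import Pool.Agent.SelbergD1.F9Count
import Pool.Agent.SelThr.Thr

/-!
# Exceptional eigenvalues of all congruence subgroups: a density theorem beyond the density hypothesis

Definitions.

`IsEigenform Γ μ f` (`Pool/Agent/Selberg/Defs.lean`): `f` is smooth on the upper half plane, invariant
under `Γ`, `-y² (f_xx + f_yy) = μ f`, and `|f|² / y²` is integrable on `γ 𝒟` for all `γ` in `SL(2,ℤ)`, `𝒟` the
standard fundamental domain.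

`Mult N μ m` (`Pool/Agent/SelThr/Mult.lean`): `Γ(N)` has `m` linearly independent eigenforms with
eigenvalue `μ`.
-/

open Set MeasureTheory UpperHalfPlane CongruenceSubgroup
open scoped MatrixGroups

namespace Pool.Agent.Results.MP_a812b2_nt.DensityCongruence

open Pool.Agent.Selberg Pool.Agent.SelThr

/-- (1) For every `ε > 0` there is `C` such that for every congruence subgroup `Γ` of `SL(2,ℤ)`, of index
`I` and with `R` double cosets `Γ x Γ` in `SL(2,ℤ)`, and all linearly independent square-integrable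
eigenforms of `Γ` with eigenvalues `s_i (1 - s_i)`, `1/2 + ε ≤ s_i < 1`,
`∑ X^(2 s_i - 1) ≤ C I^(1+ε)`, `X = max(I^(4/3), I²/R)`. So at most `C I^(1+ε) X^(1-2σ)` of the `s_i` are
`≥ σ`, in particular at most `C I^(1 - (4/3)(2σ-1) + ε)`, i.e. at most `C I^(1 - (8/3) a + ε)` of the `s_i`
are `≥ 1/2 + a`. The constant depends on `ε` only.

(2) If `Γ(N)` has `m` linearly independent eigenforms with eigenvalue `μ ≠ 0`, then `Γ(N M)`, `M`
squarefree and prime to `N`, has `M m` linearly independent eigenforms with this eigenvalue.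

(3) For each `θ < 1/3`, Selberg's conjecture (no congruence subgroup has an eigenvalue in `(0, 1/4)`)
holds if and only if there is `C` such that the multiplicity of every eigenvalue of `Γ(N)` in `(0, 1/4)`
is at most `C I^θ`, `I` the index of `Γ(N)`, for every `N ≥ 1`. -/
theorem result : (∀ ε : ℝ, 0 < ε → ∃ C : ℝ, 0 < C ∧
    ∀ Γ : Subgroup SL(2, ℤ), (∃ N : ℕ, 0 < N ∧ Gamma N ≤ Γ) →
    ∀ X : ℝ, X = max ((Γ.index : ℝ) ^ ((4 : ℝ) / 3))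
      ((Γ.index : ℝ) ^ 2 / Nat.card (DoubleCoset.Quotient (Γ : Set SL(2, ℤ)) (Γ : Set SL(2, ℤ)))) →
    ∀ (m : ℕ) (s : Fin m → ℝ) (F : Fin m → ℂ → ℂ),
      (∀ i, 1 / 2 + ε ≤ s i ∧ s i < 1 ∧ IsEigenform Γ (s i * (1 - s i)) (F i)) →
      LinearIndependent ℂ (fun i => fun z : ℍ => F i z) →
      (∑ i, X ^ (2 * s i - 1) ≤ C * (Γ.index : ℝ) ^ (1 + ε)) ∧
      ∀ σ : ℝ, (Nat.card {i // σ ≤ s i} : ℝ) ≤ C * (Γ.index : ℝ) ^ (1 + ε) * X ^ (1 - 2 * σ) ∧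
        (1 / 2 ≤ σ → (Nat.card {i // σ ≤ s i} : ℝ) ≤
          C * (Γ.index : ℝ) ^ (1 - 8 / 3 * (σ - 1 / 2) + ε))) ∧
    (∀ N M : ℕ, 0 < N → Squarefree M → M.Coprime N → ∀ (μ : ℝ) (m : ℕ), μ ≠ 0 →
      Mult N μ m → Mult (N * M) μ (M * m)) ∧
    ∀ θ : ℝ, θ < 1 / 3 → ((∀ Γ : Subgroup SL(2, ℤ), (∃ N : ℕ, 0 < N ∧ Gamma N ≤ Γ) →
      ∀ (f : ℂ → ℂ) (μ : ℝ), 0 < μ → μ < 1 / 4 → IsEigenform Γ μ f → ∀ z : ℍ, f (z : ℂ) = 0) ↔
    ∃ C : ℝ, ∀ N : ℕ, 0 < N → ∀ (μ : ℝ) (m : ℕ), 0 < μ → μ < 1 / 4 →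
      Mult N μ m → (m : ℝ) ≤ C * ((Gamma N).index : ℝ) ^ θ) := by
  refine ⟨?_, fun N M hN hM hc μ m hμ h => Mult.squarefree hN hM hc hμ h,
    fun θ hθ => threshold hθ⟩
  intro ε hε
  obtain ⟨C, hC, h⟩ := Pool.Agent.SelbergD1.theoremB ε hε
  refine ⟨C, hC, fun Γ hΓ X hX m s F hF hli => ?_⟩
  have h1 := h Γ hΓ m s F hF hli
  rw [← hX] at h1
  have hfi : Γ.FiniteIndex := by
    obtain ⟨N, hN, hle⟩ := hΓ
    have : NeZero N := ⟨hN.ne'⟩
    exact Subgroup.finiteIndex_of_le hle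
  have hI : (1:ℝ) ≤ Γ.index := by
    exact_mod_cast Nat.one_le_iff_ne_zero.mpr Subgroup.FiniteIndex.index_ne_zero
  have hI0 : (0:ℝ) < Γ.index := by linarith
  have hXI : (Γ.index : ℝ) ^ ((4 : ℝ) / 3) ≤ X := by rw [hX]; exact le_max_left _ _
  have hX1 : 1 ≤ X := le_trans (Real.one_le_rpow hI (by norm_num)) hXI
  refine ⟨h1, fun σ => ?_⟩
  have h2 := Pool.Agent.SelbergD1.count_le_of_sum hX1 h1 σ
  refine ⟨h2, fun hσ => h2.trans ?_⟩
  rw [mul_assoc]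
  refine mul_le_mul_of_nonneg_left ?_ hC.le
  have h3 : X ^ (1 - 2 * σ) ≤ ((Γ.index : ℝ) ^ ((4 : ℝ) / 3)) ^ (1 - 2 * σ) :=
    Real.rpow_le_rpow_of_nonpos (by positivity) hXI (by linarith)
  calc (Γ.index : ℝ) ^ (1 + ε) * X ^ (1 - 2 * σ)
      ≤ (Γ.index : ℝ) ^ (1 + ε) * ((Γ.index : ℝ) ^ ((4 : ℝ) / 3)) ^ (1 - 2 * σ) := by gcongr
    _ = (Γ.index : ℝ) ^ (1 - 8 / 3 * (σ - 1 / 2) + ε) := by
        rw [← Real.rpow_mul hI0.le, ← Real.rpow_add hI0]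
        congr 1; ring

end Pool.Agent.Results.MP_a812b2_nt.DensityCongruence
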