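import Pool.Agent.SelbergD1.F8Irr
import Pool.Agent.SelbergD1.F9Count
import Pool.Agent.SelThr.Types

/-!
# Exceptional eigenvalues of irreducible congruence types

Definitions.

`IsEigenform Γ μ f` (`Pool/Agent/Selberg/Defs.lean`): `f` is smooth on the upper half plane, invariant
under `Γ`, `-y² (f_xx + f_yy) = μ f`, and `|f|² / y²` is integrable on `γ 𝒟` for all `γ` in `SL(2,ℤ)`, `𝒟` the
standard fundamental domain.

`IsVectorEigenform ρ μ F` (`Pool/Agent/SelbergDen/VecDef.lean`): `F` has smooth components on the upper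
half plane, `F(γ z) = ρ(γ) F(z)` for `γ` in `SL(2,ℤ)`, `-y² (F_xx + F_yy) = μ F`, and `|F_k|² / y²` is
integrable on `𝒟` for every component.
-/

open Set MeasureTheory UpperHalfPlane
open scoped MatrixGroups

namespace Pool.Agent.Results.MP_a812b2_nt.DensityTypes

open Pool.Agent.Selberg Pool.Agent.SelbergDen CongruenceSubgroup

/-- (1) For every `ε > 0` there is `C` such that for every irreducible unitary representation
`ρ : SL(2, ℤ/N) → U(d)` and all linearly independent square-integrable `ρ`-valued eigenforms with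
eigenvalues `s_i (1 - s_i)`, `1/2 + ε ≤ s_i < 1`, `∑ d^(4 s_i - 2) ≤ C d^(1+ε)`, so at most
`C d^(1 - 4 a + ε)` of the `s_i` are `≥ 1/2 + a`. The constant depends on `ε` only.

(2) Selberg's conjecture (no congruence subgroup has an eigenvalue in `(0, 1/4)`) holds if and only if
there is `D` such that no irreducible `ρ : SL(2, ℤ/N) → U(d)`, `N ≥ 1`, `d ≥ D`, has a nonzero eigenform
with eigenvalue in `(0, 1/4)`. -/
theorem result : (∀ ε : ℝ, 0 < ε → ∃ C : ℝ, 0 < C ∧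
    ∀ (N : ℕ) [NeZero N] (d : ℕ)
      (ρ : Matrix.SpecialLinearGroup (Fin 2) (ZMod N) →* Matrix.unitaryGroup (Fin d) ℂ),
      (∀ W : Submodule ℂ (Fin d → ℂ),
          (∀ g, ∀ w ∈ W, (ρ g : Matrix (Fin d) (Fin d) ℂ).mulVec w ∈ W) → W = ⊥ ∨ W = ⊤) →
    ∀ (m : ℕ) (s : Fin m → ℝ) (F : Fin m → ℂ → Fin d → ℂ),
      (∀ i, 1 / 2 + ε ≤ s i ∧ s i < 1 ∧ IsVectorEigenform
        (ρ.comp (Matrix.SpecialLinearGroup.map (Int.castRingHom (ZMod N)))) (s i * (1 - s i)) (F i)) →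
      LinearIndependent ℂ (fun i => fun z : ℍ => F i z) →
      (∑ i, (d : ℝ) ^ (4 * s i - 2) ≤ C * (d : ℝ) ^ (1 + ε)) ∧
      ∀ a : ℝ, (Nat.card {i // 1 / 2 + a ≤ s i} : ℝ) ≤ C * (d : ℝ) ^ (1 - 4 * a + ε)) ∧
    ((∀ Γ : Subgroup SL(2, ℤ), (∃ N : ℕ, 0 < N ∧ Gamma N ≤ Γ) →
      ∀ (f : ℂ → ℂ) (μ : ℝ), 0 < μ → μ < 1 / 4 → IsEigenform Γ μ f → ∀ z : ℍ, f (z : ℂ) = 0) ↔
    ∃ D : ℕ, ∀ (N : ℕ) [NeZero N] (d : ℕ)
      (ρ : Matrix.SpecialLinearGroup (Fin 2) (ZMod N) →* Matrix.unitaryGroup (Fin d) ℂ),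
      (∀ W : Submodule ℂ (Fin d → ℂ),
          (∀ g, ∀ w ∈ W, (ρ g : Matrix (Fin d) (Fin d) ℂ).mulVec w ∈ W) → W = ⊥ ∨ W = ⊤) →
      D ≤ d → ∀ (F : ℂ → Fin d → ℂ) (μ : ℝ), 0 < μ → μ < 1 / 4 → IsVectorEigenform
        (ρ.comp (Matrix.SpecialLinearGroup.map (Int.castRingHom (ZMod N)))) μ F →
      ∀ z : ℍ, F (z : ℂ) = 0) := by
  refine ⟨?_, Pool.Agent.SelThr.types_threshold⟩
  intro ε hε
  obtain ⟨C, hC, h⟩ := Pool.Agent.SelbergD1.theoremA_irr ε hε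
  refine ⟨C, hC, fun N _ d ρ hirr m s F hF hli => ?_⟩
  have h1 := h N d ρ hirr m s F hF hli
  refine ⟨h1, fun a => ?_⟩
  rcases Nat.eq_zero_or_pos d with hd0 | hd
  · subst hd0
    have hm : m = 0 := by
      rcases Nat.eq_zero_or_pos m with h' | h'
      · exact h'
      · exfalso
        refine hli.ne_zero ⟨0, h'⟩ ?_
        funext z k
        exact k.elim0
    subst hm
    have : Nat.card {i : Fin 0 // 1 / 2 + a ≤ s i} = 0 := by
      rw [Nat.card_eq_zero]; left; exact ⟨fun i => i.1.elim0⟩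
    rw [this]
    simp only [Nat.cast_zero]
    positivity
  · have hdr : (1:ℝ) ≤ d := by exact_mod_cast hd
    have hd0 : (0:ℝ) < d := by linarith
    have hX1 : (1:ℝ) ≤ (d:ℝ) ^ (2:ℝ) := Real.one_le_rpow hdr (by norm_num)
    have h2 : ∑ i, ((d:ℝ) ^ (2:ℝ)) ^ (2 * s i - 1) ≤ C * (d : ℝ) ^ (1 + ε) := by
      refine le_trans (le_of_eq (Finset.sum_congr rfl fun i _ => ?_)) h1
      rw [← Real.rpow_mul hd0.le]
      congr 1; ring
    refine (Pool.Agent.SelbergD1.count_le_of_sum hX1 h2 (1 / 2 + a)).trans (le_of_eq ?_)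
    rw [mul_assoc, ← Real.rpow_mul hd0.le, ← Real.rpow_add hd0]
    congr 2; ring

end Pool.Agent.Results.MP_a812b2_nt.DensityTypes

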