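import Pool.Agent.SelbergFI.Q7
import Pool.Agent.SelbergDen.TwDef

/-!
# The number of eigenvalues up to 1/4 for all subgroups of finite index of the modular group and all unitary twists

For every `ε > 0` there is `C > 0` such that the following holds for every congruence subgroup `Γ` of
`SL(2,ℤ)`, of index `I`, every subgroup `H ≤ Γ` of finite index (congruence or not), every unitary
representation `ψ : H → U(d)` and every `a ≥ 0`. If `λ₁, ..., λ_m ∈ [0, 1/4 - a²]` are eigenvalues of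
linearly independent square-integrable `ψ`-twisted eigenforms of `H`, then
`∑ I ^ ((2 - ε) √(1/4 - λ_i)) ≤ C d [Γ : H] I / (1 + log I) ^ 3`, and so
`m ≤ C d [Γ : H] I ^ (1 - (2 - ε) a) / (1 + log I) ^ 3`. For `a = 0` this bounds the number of all
eigenvalues `λ ≤ 1/4` by `C d [Γ : H] I / (1 + log I) ^ 3`.
-/

open Set MeasureTheory UpperHalfPlane CongruenceSubgroup
open scoped MatrixGroups

namespace Pool.Agent.Results.MP_a812b2_nt.LogFreeFull

open Pool.Agent.SelbergDen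

theorem result : ∀ ε : ℝ, 0 < ε → ∃ C : ℝ, 0 < C ∧
    ∀ Γ H : Subgroup SL(2, ℤ), (∃ N : ℕ, 0 < N ∧ Gamma N ≤ Γ) → H ≤ Γ → H.FiniteIndex →
    ∀ (d : ℕ) (ψ : H →* Matrix.unitaryGroup (Fin d) ℂ) (a : ℝ), 0 ≤ a →
    ∀ (m : ℕ) (μ : Fin m → ℝ) (F : Fin m → ℂ → Fin d → ℂ),
      (∀ i, 0 ≤ μ i ∧ μ i ≤ 1 / 4 - a ^ 2 ∧ IsTwistedEigenform H ψ (μ i) (F i)) →
      LinearIndependent ℂ (fun i => fun z : ℍ => F i z) →
      (∑ i, (Γ.index : ℝ) ^ ((2 - ε) * Real.sqrt (1 / 4 - μ i)) ≤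
        C * (d * H.relIndex Γ * Γ.index) / (1 + Real.log Γ.index) ^ 3) ∧
      (m : ℝ) ≤ C * (d * H.relIndex Γ) * (Γ.index : ℝ) ^ (1 - (2 - ε) * a) /
        (1 + Real.log Γ.index) ^ 3 :=
  Pool.Agent.SelbergFI.full

end Pool.Agent.Results.MP_a812b2_nt.LogFreeFull
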