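import Pool.Agent.SelbergU.Count
import Pool.Agent.SelbergDen.TwDef

/-!
# The density hypothesis for all congruence subgroups and representations, without any loss in the constant

For every `ε > 0` there is `C > 0` such that the following holds for every congruence subgroup `Γ` of `SL(2,ℤ)`, of
index `I`.

(1) For every `a ≥ 0` there are at most `C I ^ (1 - (2 - ε) a) / (1 + log I) ^ 3` eigenvalues `0 < λ ≤ 1/4 - a²` of
`Γ`, counted with multiplicity (linearly independent square-integrable eigenforms).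

(2) For every unitary representation `ψ : Γ → U(d)` which is trivial on `Γ ∩ Γ(M)` for some `M ≥ 1` and has no
non-zero invariant subspace of dimension `< δ` (`δ ≥ 1`), every `0 ≤ η ≤ 1/4` and all linearly independent
square-integrable `ψ`-twisted eigenforms of `Γ` with eigenvalues `0 < λ_i ≤ 1/4 + η²`, with `D = δ I`,
`∑ D ^ ((2 - ε) √(1/4 - λ_i)) ≤ C d I (η + 1 / (1 + log D)) ^ 3`
(where the square root of a negative number is `0`). The bound does not depend on `M`.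
-/

open Set MeasureTheory UpperHalfPlane CongruenceSubgroup
open scoped MatrixGroups

namespace Pool.Agent.Results.MP_a812b2_nt.LogFreeRepresentations

open Pool.Agent.Selberg Pool.Agent.SelbergDen

theorem result : ∀ ε : ℝ, 0 < ε → ∃ C : ℝ, 0 < C ∧
    ∀ Γ : Subgroup SL(2, ℤ), (∃ N : ℕ, 0 < N ∧ Gamma N ≤ Γ) →
    (∀ a : ℝ, 0 ≤ a → ∀ (m : ℕ) (μ : Fin m → ℝ) (F : Fin m → ℂ → ℂ),
      (∀ i, 0 < μ i ∧ μ i ≤ 1 / 4 - a ^ 2 ∧ IsEigenform Γ (μ i) (F i)) →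
      LinearIndependent ℂ (fun i => fun z : ℍ => F i z) →
      (m : ℝ) ≤ C * (Γ.index : ℝ) ^ (1 - (2 - ε) * a) / (1 + Real.log Γ.index) ^ 3) ∧
    ∀ (M d δ : ℕ) (ψ : Γ →* Matrix.unitaryGroup (Fin d) ℂ), 0 < M → 0 < δ →
      (∀ γ : Γ, (γ : SL(2, ℤ)) ∈ Gamma M → ψ γ = 1) →
      (∀ W : Submodule ℂ (Fin d → ℂ),
          (∀ γ : Γ, ∀ w ∈ W, (ψ γ : Matrix (Fin d) (Fin d) ℂ).mulVec w ∈ W) → W ≠ ⊥ →
          δ ≤ Module.finrank ℂ W) →
    ∀ η : ℝ, 0 ≤ η → η ≤ 1 / 4 →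
    ∀ (m : ℕ) (μ : Fin m → ℝ) (F : Fin m → ℂ → Fin d → ℂ),
      (∀ i, 0 < μ i ∧ μ i ≤ 1 / 4 + η ^ 2 ∧ IsTwistedEigenform Γ ψ (μ i) (F i)) →
      LinearIndependent ℂ (fun i => fun z : ℍ => F i z) →
      ∑ i, ((δ : ℝ) * Γ.index) ^ ((2 - ε) * Real.sqrt (1 / 4 - μ i)) ≤
        C * (d * Γ.index) * (η + 1 / (1 + Real.log (δ * Γ.index))) ^ 3 := by
  intro ε hε
  obtain ⟨C₁, hC₁, h₁⟩ := Pool.Agent.SelbergU.count_groups ε hε
  obtain ⟨C₂, hC₂, h₂⟩ := Pool.Agent.SelbergU.hyp_all ε hε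
  refine ⟨max C₁ C₂, lt_max_of_lt_left hC₁, fun Γ hΓ => ?_⟩
  have hI : 1 ≤ Γ.index := by
    obtain ⟨N, hN0, hN⟩ := hΓ
    have : NeZero N := ⟨hN0.ne'⟩
    exact Nat.one_le_iff_ne_zero.mpr (Subgroup.finiteIndex_of_le hN).index_ne_zero
  have hlog : ∀ k : ℕ, 0 ≤ Real.log (k * Γ.index) := fun k => by
    have := Real.log_natCast_nonneg (k * Γ.index)
    push_cast at this
    exact this
  refine ⟨fun a ha m μ F hF hli => ?_, fun M d δ ψ hM hδ hψ hW η hη0 hη1 m μ F hF hli => ?_⟩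
  · refine (h₁ Γ hΓ a ha m μ F hF hli).trans ?_
    have h0 : 0 ≤ Real.log Γ.index := Real.log_natCast_nonneg _
    gcongr
    exact le_max_left _ _
  · refine (h₂ Γ hΓ d ψ ⟨M, hM, hψ⟩ δ hδ hW η hη0 hη1 m μ F hF hli).trans ?_
    have h0 := hlog δ
    gcongr
    exact le_max_right _ _

end Pool.Agent.Results.MP_a812b2_nt.LogFreeRepresentations
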